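import Pool.Agent.H88.CM.Targets

/-!
Board clm_modules, row SEQ: charts along an orbit.
-/

set_option autoImplicit false

open Set Function Topology Metric Filter
open scoped Manifold
open Pool.Agent.H88.CL Pool.Agent.H88.CM

namespace Pool.Agent.H40.CM

theorem lip_of_fderiv {d : ℕ} {L : ℝ} {Φ : E d → E d} (hc : ContDiff ℝ 2 Φ)
    (hb : ∀ x, ‖fderiv ℝ Φ x‖ ≤ L) (x y : E d) : ‖Φ x - Φ y‖ ≤ L * ‖x - y‖ :=
  (convex_univ (𝕜 := ℝ) (E := E d)).norm_image_sub_le_of_norm_fderiv_le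
    (fun z _ => (hc.differentiable (by norm_num)).differentiableAt) (fun z _ => hb z)
    (mem_univ y) (mem_univ x)

theorem pf_SEQ (h1 : T_LOC) (h2 : T_EXT) : T_SEQ := by
  intro d M _ _ _ _ _ n A Kh r hG f f' hf
  obtain ⟨r1, L1, hr1, hr1r, hL1, hloc⟩ := h1 d M n A Kh r hG f f' hf
  obtain ⟨s, L, hs, hsr, hL2, hext⟩ := h2 d r1 L1 hr1 hL1
  refine ⟨s, L, hs, hL2, fun b i0 hb0 hball => ?_⟩
  choose cv hcv hcvb using hG.cov
  set ι : ℕ → Fin n := fun l => if l = 0 then i0 else cv (f^[l] b) with hι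
  have hι0 : ι 0 = i0 := by
    rw [hι]
    simp
  have hιs : ∀ l, ι (l + 1) = cv (f^[l + 1] b) := by
    intro l
    rw [hι]
    simp
  have hys : ∀ l, f^[l] b ∈ (A (ι l)).source := by
    intro l
    rcases l with _ | l
    · rw [hι0]
      exact hb0
    · rw [hιs]
      exact hcv _
  have hyb : ∀ l, closedBall (A (ι l) (f^[l] b)) r ⊆ Kh (ι l) := by
    intro l
    rcases l with _ | l
    · rw [hι0]
      exact hball
    · rw [hιs]
      exact hcvb _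
  have hck : ∀ l, A (ι l) (f^[l] b) ∈ Kh (ι l) := fun l =>
    hyb l (mem_closedBall_self hG.rpos.le)
  have hysucc : ∀ l, f (f^[l] b) = f^[l + 1] b := fun l => (iterate_succ_apply' f l b).symm
  have hl := fun l => hloc (ι l) (ι (l + 1)) (f^[l] b) (hys l) (hck l)
    (by rw [hysucc]; exact hys (l + 1)) (by rw [hysucc]; exact hck (l + 1))
  have hex : ∀ l, ∃ Φ Φ' : E d → E d, ContDiff ℝ 2 Φ ∧ ContDiff ℝ 2 Φ' ∧ (∀ x, Φ' (Φ x) = x) ∧
      (∀ x, Φ (Φ' x) = x) ∧ (∀ x, ‖fderiv ℝ Φ x‖ ≤ L) ∧ (∀ x, ‖fderiv ℝ Φ' x‖ ≤ L) ∧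
      (∀ x y, ‖fderiv ℝ Φ x - fderiv ℝ Φ y‖ ≤ L * ‖x - y‖) ∧
      ∀ x ∈ ball (A (ι l) (f^[l] b)) s, Φ x = rep (A (ι l)) (A (ι (l + 1))) f x := by
    intro l
    obtain ⟨hcd, -, hb1, hlip, A', hA', hAl, hAr⟩ := hl l
    exact hext _ _ A' hcd hb1 hlip hA' hAl hAr
  choose Φ Φ' hΦ using hex
  have hL1' : 1 ≤ L := by linarith
  -- the centres are mapped to each other
  have hcen : ∀ l, Φ l (A (ι l) (f^[l] b)) = A (ι (l + 1)) (f^[l + 1] b) := by
    intro l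
    rw [(hΦ l).2.2.2.2.2.2.2 _ (mem_ball_self hs)]
    unfold rep
    rw [(A (ι l)).left_inv (hys l), hysucc]
  have hpow : ∀ (l : ℕ) (w : E d), L ^ (l + 1) * ‖w - A i0 b‖ < s →
      L ^ l * ‖w - A i0 b‖ < s := by
    intro l w hw
    refine lt_of_le_of_lt ?_ hw
    refine mul_le_mul_of_nonneg_right ?_ (norm_nonneg _)
    exact pow_le_pow_right₀ hL1' (Nat.le_succ l)
  have hw0 : ∀ (l : ℕ) (w : E d), L ^ l * ‖w - A i0 b‖ < s → w ∈ (A i0).target := by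
    intro l w hw
    have h3 : ‖w - A i0 b‖ ≤ L ^ l * ‖w - A i0 b‖ :=
      le_mul_of_one_le_left (norm_nonneg _) (one_le_pow₀ hL1')
    refine hG.sub i0 (hball ?_)
    rw [mem_closedBall, dist_eq_norm]
    linarith
  have key : ∀ (l : ℕ) (w : E d), L ^ l * ‖w - A i0 b‖ < s →
      ‖Cmp Φ l w - A (ι l) (f^[l] b)‖ ≤ L ^ l * ‖w - A i0 b‖ ∧
      f^[l] ((A i0).symm w) ∈ (A (ι l)).source ∧
      A (ι l) (f^[l] ((A i0).symm w)) = Cmp Φ l w := by
    intro l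
    induction l with
    | zero =>
      intro w hw
      have ht := hw0 0 w hw
      rw [hι0]
      refine ⟨?_, (A i0).map_target ht, (A i0).right_inv ht⟩
      rw [pow_zero, one_mul]
      exact le_rfl
    | succ l ih =>
      intro w hw
      have hw' := hpow l w hw
      obtain ⟨i1, i2, i3⟩ := ih w hw'
      have hab : Cmp Φ l w ∈ ball (A (ι l) (f^[l] b)) s := by
        rw [mem_ball, dist_eq_norm]
        exact lt_of_le_of_lt i1 hw'
      have hab1 : Cmp Φ l w ∈ ball (A (ι l) (f^[l] b)) r1 := ball_subset_ball hsr hab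
      obtain ⟨-, hmem, -, -, -⟩ := hl l
      obtain ⟨-, m2⟩ := hmem _ hab1
      have hsym : (A (ι l)).symm (Cmp Φ l w) = f^[l] ((A i0).symm w) := by
        rw [← i3, (A (ι l)).left_inv i2]
      rw [hsym] at m2
      have e1 : Cmp Φ (l + 1) w = Φ l (Cmp Φ l w) := rfl
      refine ⟨?_, ?_, ?_⟩
      · rw [e1, ← hcen l]
        refine (lip_of_fderiv (hΦ l).1 (hΦ l).2.2.2.2.1 _ _).trans ?_
        rw [pow_succ, mul_comm (L ^ l) L, mul_assoc]
        exact mul_le_mul_of_nonneg_left i1 (by linarith)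
      · rw [iterate_succ_apply']
        exact m2
      · rw [iterate_succ_apply', e1, (hΦ l).2.2.2.2.2.2.2 _ hab]
        unfold rep
        rw [hsym]
  refine ⟨ι, Φ, Φ', hι0, ⟨hL2, fun l => (hΦ l).1, fun l => (hΦ l).2.1, fun l => (hΦ l).2.2.1,
    fun l => (hΦ l).2.2.2.1, fun l => (hΦ l).2.2.2.2.1, fun l => (hΦ l).2.2.2.2.2.1,
    fun l => (hΦ l).2.2.2.2.2.2.1⟩, fun l w hw => ?_⟩
  obtain ⟨k1, k2, k3⟩ := key l w hw
  refine ⟨hw0 l w hw, hyb l ?_, k2, k3⟩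
  rw [mem_closedBall, dist_eq_norm]
  linarith

end Pool.Agent.H40.CM
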